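import Pool.Agent.Lib.MP_e69082_gt.Grp

/-!
# An index adapted to an infinite subgroup
-/

set_option autoImplicit false

namespace Pool.Agent.Lib.MP_e69082_gt

open Set

universe u

variable {F : Type*} [Field F]

/-- The dot product on finitely supported functions. -/
noncomputable def dot (F : Type*) [Field F] (ι : Type*) : (ι →₀ F) →ₗ[F] (ι →₀ F) →ₗ[F] F :=
  Finsupp.linearCombination F (fun i => Finsupp.lapply i)

theorem dot_single_left {ι : Type*} (i : ι) (c : ι →₀ F) :
    dot F ι (Finsupp.single i 1) c = c i := by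
  simp [dot]

theorem dot_single_right {ι : Type*} (a : ι →₀ F) (i : ι) :
    dot F ι a (Finsupp.single i 1) = a i := by
  classical
  simp only [dot, Finsupp.linearCombination_apply, Finsupp.sum, LinearMap.coe_sum,
    Finset.sum_apply, LinearMap.smul_apply, Finsupp.lapply_apply, smul_eq_mul]
  rw [Finset.sum_eq_single i]
  · simp
  · intro b _ hb
    rw [Finsupp.single_apply, if_neg (fun h => hb h.symm), mul_zero]
  · intro hi
    rw [Finsupp.notMem_support_iff.1 hi, zero_mul]

/-- The index attached to two linear maps to finitely supported functions. -/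
noncomputable def mkIdx {H : Type u} [AddCommGroup H] [Module F H] {ι : Type*}
    (A C : H →ₗ[F] (ι →₀ F)) (i₀ : ι) : Idx H F where
  φ := ((Finsupp.lapply i₀).comp A).toAddMonoidHom
  B := AddMonoidHom.mk' (fun x => (((dot F ι (A x)).comp C) + ((dot F ι).flip (C x)).comp A
    ).toAddMonoidHom) (by
      intro x y
      ext t
      simp
      ring)
  q := fun x => dot F ι (A x) (C x)
  hq := by
    intro x y
    simp
    ring

theorem mkIdx_φ {H : Type u} [AddCommGroup H] [Module F H] {ι : Type*}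
    (A C : H →ₗ[F] (ι →₀ F)) (i₀ : ι) (x : H) : (mkIdx A C i₀).φ x = A x i₀ := rfl

theorem mkIdx_B {H : Type u} [AddCommGroup H] [Module F H] {ι : Type*}
    (A C : H →ₗ[F] (ι →₀ F)) (i₀ : ι) (x y : H) :
    (mkIdx A C i₀).B x y = dot F ι (A x) (C y) + dot F ι (A y) (C x) := rfl

/-- For every infinite subspace there is an index `(φ, B, q)` such that only finitely many
elements `h` of the subspace satisfy `φ(x) B(y, h) = φ(y) B(x, h)` for all `x`, `y` in the
subspace. -/
theorem exists_idx [Finite F] {H : Type u} [AddCommGroup H] [Module F H] (H₁ : Submodule F H)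
    (hinf : (H₁ : Set H).Infinite) :
    ∃ i : Idx H F, {h : H | h ∈ H₁ ∧
      ∀ x ∈ H₁, ∀ y ∈ H₁, i.φ x * i.B y h - i.φ y * i.B x h = 0}.Finite := by
  classical
  obtain ⟨π, hπ⟩ := H₁.subtype.exists_leftInverse_of_injective H₁.ker_subtype
  have hπ' : ∀ x : H₁, π x = x := fun x => LinearMap.congr_fun hπ x
  let b₀ := Module.Basis.ofVectorSpace F H₁
  have hinf' : Infinite H₁ := Set.infinite_coe_iff.2 hinf
  have hι : Infinite (Module.Basis.ofVectorSpaceIndex F H₁) := by
    by_contra h
    rw [not_infinite_iff_finite] at h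
    have h1 : Finite ((Module.Basis.ofVectorSpaceIndex F H₁) →₀ F) :=
      Finite.of_injective (fun f => (f : Module.Basis.ofVectorSpaceIndex F H₁ → F))
        DFunLike.coe_injective
    have h2 : Finite H₁ := Finite.of_equiv _ b₀.repr.symm.toEquiv
    exact not_finite H₁
  obtain ⟨e⟩ : Nonempty (Module.Basis.ofVectorSpaceIndex F H₁ ≃
      (Module.Basis.ofVectorSpaceIndex F H₁ ⊕ Module.Basis.ofVectorSpaceIndex F H₁)) := by
    rw [← Cardinal.eq, Cardinal.mk_sum]
    simp only [Cardinal.lift_id]
    exact (Cardinal.add_eq_self (Cardinal.aleph0_le_mk _)).symm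
  let b := b₀.reindex e
  let A : H →ₗ[F] (Module.Basis.ofVectorSpaceIndex F H₁ →₀ F) :=
    (Finsupp.lcomapDomain Sum.inl Sum.inl_injective).comp (b.repr.toLinearMap.comp π)
  let C : H →ₗ[F] (Module.Basis.ofVectorSpaceIndex F H₁ →₀ F) :=
    (Finsupp.lcomapDomain Sum.inr Sum.inr_injective).comp (b.repr.toLinearMap.comp π)
  have hA : ∀ (x : H₁) i, A x i = b.repr x (Sum.inl i) := by
    intro x i
    simp only [A, LinearMap.comp_apply, hπ']
    rfl
  have hC : ∀ (x : H₁) i, C x i = b.repr x (Sum.inr i) := by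
    intro x i
    simp only [C, LinearMap.comp_apply, hπ']
    rfl
  obtain ⟨i₀⟩ : Nonempty (Module.Basis.ofVectorSpaceIndex F H₁) := inferInstance
  have hAl : ∀ i, A (b (Sum.inl i)) = Finsupp.single i 1 := by
    intro i
    ext j
    rw [hA, Module.Basis.repr_self, Finsupp.single_apply, Finsupp.single_apply]
    simp
  have hAr : ∀ i, A (b (Sum.inr i)) = 0 := by
    intro i
    ext j
    rw [hA, Module.Basis.repr_self, Finsupp.single_apply]
    simp
  have hCl : ∀ i, C (b (Sum.inl i)) = 0 := by
    intro i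
    ext j
    rw [hC, Module.Basis.repr_self, Finsupp.single_apply]
    simp
  have hCr : ∀ i, C (b (Sum.inr i)) = Finsupp.single i 1 := by
    intro i
    ext j
    rw [hC, Module.Basis.repr_self, Finsupp.single_apply, Finsupp.single_apply]
    simp
  refine ⟨mkIdx A C i₀, ?_⟩
  refine Set.Finite.subset (Set.finite_range fun c : F => c • (b (Sum.inr i₀) : H)) ?_
  rintro h ⟨hh, ht⟩
  have h1 : ∀ i, i ≠ i₀ → b.repr ⟨h, hh⟩ (Sum.inr i) = 0 := by
    intro i hi
    have := ht (b (Sum.inl i₀)) (b (Sum.inl i₀)).2 (b (Sum.inl i)) (b (Sum.inl i)).2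
    simp only [mkIdx_φ, mkIdx_B, hAl, hCl, dot_single_left, map_zero, add_zero,
      Finsupp.single_eq_same, one_mul] at this
    rw [Finsupp.single_apply, if_neg hi, zero_mul, sub_zero] at this
    rw [← hC ⟨h, hh⟩ i]
    exact this
  have h2 : ∀ i, b.repr ⟨h, hh⟩ (Sum.inl i) = 0 := by
    intro i
    have := ht (b (Sum.inl i₀)) (b (Sum.inl i₀)).2 (b (Sum.inr i)) (b (Sum.inr i)).2
    simp only [mkIdx_φ, mkIdx_B, hAl, hCl, hAr, hCr, dot_single_left, dot_single_right, map_zero,
      zero_add, Finsupp.single_eq_same, one_mul, LinearMap.zero_apply, Finsupp.zero_apply,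
      zero_mul, sub_zero] at this
    rw [← hA ⟨h, hh⟩ i]
    exact this
  refine ⟨b.repr ⟨h, hh⟩ (Sum.inr i₀), ?_⟩
  have h3 : (⟨h, hh⟩ : H₁) = b.repr ⟨h, hh⟩ (Sum.inr i₀) • b (Sum.inr i₀) := by
    apply b.repr.injective
    rw [map_smul, Module.Basis.repr_self]
    ext j
    rcases j with j | j
    · rw [h2]
      simp
    · by_cases hj : j = i₀
      · subst hj
        simp
      · rw [h1 j hj]
        simp [Ne.symm hj]
  exact (congrArg Subtype.val h3).symm

end Pool.Agent.Lib.MP_e69082_gt
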