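import Mathlib

/-!
# Minimal, hereditarily minimal and c-minimal topological groups
-/

set_option autoImplicit false

namespace Pool.Agent.Lib.MP_e69082_gt

/-- A topological group is minimal if it is Hausdorff and admits no strictly coarser Hausdorff group
topology. In the order of Mathlib on topologies, `τ < σ` says that `σ` is strictly coarser than
`τ`. -/
def IsMinimalGroup (H : Type*) [Group H] [τ : TopologicalSpace H] : Prop :=
  IsTopologicalGroup H ∧ T2Space H ∧
    ¬ ∃ σ : TopologicalSpace H, @IsTopologicalGroup H σ _ ∧ @T2Space H σ ∧ τ < σ

/-- A topological group is hereditarily minimal if it is Hausdorff and every subgroup, with the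
subspace topology, is minimal. -/
def IsHereditarilyMinimal (H : Type*) [Group H] [TopologicalSpace H] : Prop :=
  IsTopologicalGroup H ∧ T2Space H ∧ ∀ K : Subgroup H, IsMinimalGroup K

/-- A topological group is c-minimal if it is Hausdorff and every closed subgroup, with the
subspace topology, is minimal. -/
def IsCMinimal (H : Type*) [Group H] [TopologicalSpace H] : Prop :=
  IsTopologicalGroup H ∧ T2Space H ∧
    ∀ K : Subgroup H, IsClosed (K : Set H) → IsMinimalGroup K

end Pool.Agent.Lib.MP_e69082_gt
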