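import Pool.Agent.Lib.MP_e69082_gt.Tube

/-!
# The group

`H` is an abelian group, `F` a commutative ring (later: `H` an `𝔽_p`-vector space, `F = 𝔽_p`).
For each triple `i = (φ, B, q)`, where `φ : H → F` is additive and `q : H → F` satisfies
`q (x + y) = q x + q y + B x y` with `B` biadditive, one has the group law
`(h, α, z) (h', α', z') = (h + h', α + α' + φ(h) B(h', ·), z + z' + α(h') + φ(h) q(h'))` on
`H × Hom(H, F) × F`; the group `Grp H F` is the fibre product over `H` of all of these groups.
-/

set_option autoImplicit false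

namespace Pool.Agent.Lib.MP_e69082_gt

open Set Topology Filter

universe u v

/-- The data of one factor. -/
structure Idx (H : Type u) (F : Type v) [AddCommGroup H] [CommRing F] where
  /-- an additive function -/
  φ : H →+ F
  /-- the polar form -/
  B : H →+ H →+ F
  /-- a quadratic function -/
  q : H → F
  hq : ∀ x y, q (x + y) = q x + q y + B x y

/-- The group. -/
@[ext]
structure Grp (H : Type u) (F : Type v) [AddCommGroup H] [CommRing F] where
  /-- the component in `H` -/
  h : H
  /-- the components in `Hom(H, F)` -/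
  a : Idx H F → (H →+ F)
  /-- the components in `F` -/
  z : Idx H F → F

variable {H : Type u} {F : Type v} [AddCommGroup H] [CommRing F]

theorem Idx.q_zero (i : Idx H F) : i.q 0 = 0 := by
  have := i.hq 0 0
  simp at this
  exact this

namespace Grp

instance : Mul (Grp H F) :=
  ⟨fun g g' => ⟨g.h + g'.h,
    fun i => g.a i + g'.a i + (AddMonoidHom.mulLeft (i.φ g.h)).comp (i.B g'.h),
    fun i => g.z i + g'.z i + g.a i g'.h + i.φ g.h * i.q g'.h⟩⟩

instance : One (Grp H F) := ⟨⟨0, 0, 0⟩⟩

instance : Inv (Grp H F) :=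
  ⟨fun g => ⟨-g.h, fun i => - g.a i + (AddMonoidHom.mulLeft (i.φ g.h)).comp (i.B g.h),
    fun i => - g.z i + g.a i g.h + i.φ g.h * i.q g.h - i.φ g.h * i.B g.h g.h⟩⟩

theorem mul_h (g g' : Grp H F) : (g * g').h = g.h + g'.h := rfl

theorem mul_a (g g' : Grp H F) (i : Idx H F) : (g * g').a i =
    g.a i + g'.a i + (AddMonoidHom.mulLeft (i.φ g.h)).comp (i.B g'.h) := rfl

theorem mul_a_apply (g g' : Grp H F) (i : Idx H F) (x : H) : (g * g').a i x =
    g.a i x + g'.a i x + i.φ g.h * i.B g'.h x := rfl

theorem mul_z (g g' : Grp H F) (i : Idx H F) : (g * g').z i =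
    g.z i + g'.z i + g.a i g'.h + i.φ g.h * i.q g'.h := rfl

theorem one_h : (1 : Grp H F).h = 0 := rfl

theorem one_a (i : Idx H F) : (1 : Grp H F).a i = 0 := rfl

theorem one_z (i : Idx H F) : (1 : Grp H F).z i = 0 := rfl

theorem inv_h (g : Grp H F) : (g⁻¹).h = - g.h := rfl

theorem inv_a_apply (g : Grp H F) (i : Idx H F) (x : H) : (g⁻¹).a i x =
    - g.a i x + i.φ g.h * i.B g.h x := rfl

theorem inv_z (g : Grp H F) (i : Idx H F) : (g⁻¹).z i =
    - g.z i + g.a i g.h + i.φ g.h * i.q g.h - i.φ g.h * i.B g.h g.h := rfl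

theorem ext' {g g' : Grp H F} (h1 : g.h = g'.h) (h2 : ∀ i x, g.a i x = g'.a i x)
    (h3 : ∀ i, g.z i = g'.z i) : g = g' := by
  apply Grp.ext h1
  · funext i
    exact AddMonoidHom.ext (h2 i)
  · funext i
    exact h3 i

instance : Group (Grp H F) where
  mul_assoc x y z := by
    apply ext'
    · simp only [mul_h, add_assoc]
    · intro i t
      simp only [mul_h, mul_a_apply, map_add, AddMonoidHom.add_apply]
      ring
    · intro i
      simp only [mul_h, mul_a_apply, mul_z, map_add, i.hq]
      ring
  one_mul x := by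
    apply ext'
    · simp only [mul_h, one_h, zero_add]
    · intro i t
      simp [mul_a_apply, one_h, one_a]
    · intro i
      simp [mul_z, one_h, one_a, one_z]
  mul_one x := by
    apply ext'
    · simp only [mul_h, one_h, add_zero]
    · intro i t
      simp [mul_a_apply, one_h, one_a]
    · intro i
      simp [mul_z, one_h, one_z, i.q_zero]
  inv_mul_cancel x := by
    apply ext'
    · simp only [mul_h, inv_h, one_h, neg_add_cancel]
    · intro i t
      simp only [mul_a_apply, inv_a_apply, inv_h, one_a, map_neg, AddMonoidHom.zero_apply]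
      ring
    · intro i
      simp only [mul_z, inv_z, inv_a_apply, inv_h, one_z, map_neg]
      ring

/-- The projection to `H`. -/
def proj : Grp H F →* Multiplicative H where
  toFun g := Multiplicative.ofAdd g.h
  map_one' := rfl
  map_mul' _ _ := rfl

theorem proj_apply (g : Grp H F) : proj g = Multiplicative.ofAdd g.h := rfl

theorem proj_surjective : Function.Surjective (proj : Grp H F →* Multiplicative H) := by
  intro x
  exact ⟨⟨Multiplicative.toAdd x, 0, 0⟩, rfl⟩

/-- The normal subgroup `h = 0`. -/
def ker (H : Type u) (F : Type v) [AddCommGroup H] [CommRing F] : Subgroup (Grp H F) :=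
  (proj : Grp H F →* Multiplicative H).ker

instance : (ker H F).Normal := MonoidHom.normal_ker _

theorem mem_ker {g : Grp H F} : g ∈ ker H F ↔ g.h = 0 := by
  unfold ker
  rw [MonoidHom.mem_ker, proj_apply]
  exact ofAdd_eq_one

/-- The quotient by the kernel is `H`. -/
noncomputable def quotEquiv (H : Type u) (F : Type v) [AddCommGroup H] [CommRing F] :
    Grp H F ⧸ ker H F ≃* Multiplicative H :=
  QuotientGroup.quotientKerEquivOfSurjective (proj : Grp H F →* Multiplicative H) proj_surjective

/-- Conjugation of an element of the kernel. -/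
theorem conj_z {n : Grp H F} (hn : n.h = 0) (g : Grp H F) (i : Idx H F) :
    (g⁻¹ * n * g).z i = n.z i + n.a i g.h := by
  have h1 : n * g = g * (g⁻¹ * n * g) := by group
  have h2 : (g⁻¹ * n * g).h = 0 := by
    simp only [mul_h, inv_h, hn]
    abel
  have h3 := congrArg (fun t => t.z i) h1
  simp only [mul_z (i := i) n g, mul_z (i := i) g (g⁻¹ * n * g), hn, h2, map_zero, i.q_zero,
    zero_mul, mul_zero] at h3
  linear_combination h3.symm

/-- The `a`-component of a commutator. -/
theorem commutator_a (g g' : Grp H F) (i : Idx H F) (x : H) :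
    (g * g' * (g' * g)⁻¹).a i x = i.φ g.h * i.B g'.h x - i.φ g'.h * i.B g.h x := by
  have h1 : g * g' = (g * g' * (g' * g)⁻¹) * (g' * g) := by group
  have h2 : (g * g' * (g' * g)⁻¹).h = 0 := by
    simp only [mul_h, inv_h]
    abel
  have h3 := congrArg (fun t => t.a i x) h1
  simp only [mul_a_apply (x := x) g g', mul_a_apply (x := x) (g * g' * (g' * g)⁻¹) (g' * g), h2,
    map_zero, zero_mul, add_zero, mul_a_apply (x := x) g' g] at h3
  linear_combination h3.symm

theorem commutator_h (g g' : Grp H F) : (g * g' * (g' * g)⁻¹).h = 0 := by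
  simp only [mul_h, inv_h]
  abel

end Grp

end Pool.Agent.Lib.MP_e69082_gt
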