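import Pool.Agent.Lib.MP_e69082_gt.Top
import Pool.Agent.Lib.MP_e69082_gt.Alg

/-!
# The group is c-minimal and its discrete quotient is not hereditarily minimal
-/

set_option autoImplicit false

namespace Pool.Agent.Lib.MP_e69082_gt

open Set Topology

universe u

namespace Grp

variable {p : ℕ} {H : Type u} [AddCommGroup H]

/-- The image in `H` of a subgroup. -/
def image (K : Subgroup (Grp H (ZMod p))) : AddSubgroup H where
  carrier := {x | ∃ g ∈ K, g.h = x}
  zero_mem' := ⟨1, K.one_mem, rfl⟩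
  add_mem' := by
    rintro _ _ ⟨g, hg, rfl⟩ ⟨g', hg', rfl⟩
    exact ⟨g * g', K.mul_mem hg hg', rfl⟩
  neg_mem' := by
    rintro _ ⟨g, hg, rfl⟩
    exact ⟨g⁻¹, K.inv_mem hg, rfl⟩

theorem mem_image {K : Subgroup (Grp H (ZMod p))} {x : H} :
    x ∈ image K ↔ ∃ g ∈ K, g.h = x := Iff.rfl

/-- Compactness of parts of a closed subgroup. -/
theorem isCompact_part [Fact p.Prime] {K : Subgroup (Grp H (ZMod p))}
    (hK : IsClosed (K : Set (Grp H (ZMod p)))) {T : Set H} (hT : T.Finite)
    {C : Set (Grp H (ZMod p))} (hC : IsClosed C) :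
    IsCompact {g : K | (g : Grp H (ZMod p)).h ∈ T ∧ (g : Grp H (ZMod p)) ∈ C} := by
  rw [Topology.IsInducing.subtypeVal.isCompact_iff]
  have h1 : Subtype.val '' {g : K | (g : Grp H (ZMod p)).h ∈ T ∧ (g : Grp H (ZMod p)) ∈ C} =
      {g : Grp H (ZMod p) | g.h ∈ T} ∩ ((K : Set (Grp H (ZMod p))) ∩ C) := by
    ext g
    constructor
    · rintro ⟨x, ⟨hx, hx'⟩, rfl⟩
      exact ⟨hx, x.2, hx'⟩
    · rintro ⟨hx, hx1, hx2⟩
      exact ⟨⟨g, hx1⟩, ⟨hx, hx2⟩, rfl⟩
  have h2 : IsCompact (Subtype.val ''
      {g : K | (g : Grp H (ZMod p)).h ∈ T ∧ (g : Grp H (ZMod p)) ∈ C}) := by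
    rw [h1]
    exact (isCompact_preimage hT).inter_right (hK.inter hC)
  exact h2

theorem isMinimalGroup_of_isClosed [Fact p.Prime] [Module (ZMod p) H]
    (K : Subgroup (Grp H (ZMod p))) (hK : IsClosed (K : Set (Grp H (ZMod p)))) :
    IsMinimalGroup K := by
  by_cases hfin : (image K : Set H).Finite
  · refine isMinimalGroup_of_stabilizer inferInstance inferInstance (V := Unit)
      {g : K | (g : Grp H (ZMod p)).h = 0} (fun _ => ()) ?_ ?_ Set.univ ?_ ?_
    · intro g n hn
      simp only [Set.mem_ofPred_eq] at hn ⊢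
      rw [Subgroup.coe_mul, Subgroup.coe_mul, mul_h, mul_h, hn, Subgroup.coe_inv, inv_h]
      abel
    · intro c
      have := isCompact_part hK (Set.finite_singleton (0 : H)) (isClosed_univ)
      convert this using 1
      ext g
      simp
    · ext g
      simp
    · have := isCompact_part hK hfin (isClosed_univ)
      convert this using 1
      ext g
      simp only [Set.mem_univ, Set.mem_ofPred_eq, and_true, true_iff]
      exact ⟨g, g.2, rfl⟩
  · obtain ⟨i, hi⟩ := exists_idx (F := ZMod p) (AddSubgroup.toZModSubmodule p (image K)) hfin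
    have hconj : ∀ (g n : K), (n : Grp H (ZMod p)).h = 0 →
        ((g⁻¹ * n * g : K) : Grp H (ZMod p)).z i = (n : Grp H (ZMod p)).z i +
          (n : Grp H (ZMod p)).a i (g : Grp H (ZMod p)).h := by
      intro g n hn
      rw [Subgroup.coe_mul, Subgroup.coe_mul, Subgroup.coe_inv]
      exact conj_z hn _ i
    -- the stabilizer
    have hT : {x : H | x ∈ image K ∧ ∀ n ∈ K, n.h = 0 → n.a i x = 0}.Finite := by
      refine hi.subset ?_
      rintro x ⟨hx, hx'⟩
      refine ⟨hx, ?_⟩
      rintro y ⟨g, hg, rfl⟩ y' ⟨g', hg', rfl⟩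
      have := hx' (g * g' * (g' * g)⁻¹)
        (K.mul_mem (K.mul_mem hg hg') (K.inv_mem (K.mul_mem hg' hg))) (commutator_h g g')
      rwa [commutator_a] at this
    refine isMinimalGroup_of_stabilizer inferInstance inferInstance (V := ZMod p)
      {g : K | (g : Grp H (ZMod p)).h = 0} (fun g => (g : Grp H (ZMod p)).z i) ?_ ?_
      {g : K | (g : Grp H (ZMod p)).h ∈ {x : H | x ∈ image K ∧ ∀ n ∈ K, n.h = 0 → n.a i x = 0}}
      ?_ ?_
    · intro g n hn
      simp only [Set.mem_ofPred_eq] at hn ⊢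
      rw [Subgroup.coe_mul, Subgroup.coe_mul, mul_h, mul_h, hn, Subgroup.coe_inv, inv_h]
      abel
    · intro c
      have hC : IsClosed {g : Grp H (ZMod p) | g.z i = c} :=
        isClosed_eq (continuous_z i) continuous_const
      exact isCompact_part hK (Set.finite_singleton (0 : H)) hC
    · ext g
      simp only [Set.mem_ofPred_eq]
      constructor
      · rintro ⟨-, h⟩ n hn
        rw [hconj g n hn, h n n.2 hn, add_zero]
      · intro h
        refine ⟨⟨g, g.2, rfl⟩, ?_⟩
        intro n hn hn0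
        have h1 := h ⟨n, hn⟩ hn0
        rw [hconj g ⟨n, hn⟩ hn0] at h1
        simpa using h1
    · have := isCompact_part hK hT (isClosed_univ)
      convert this using 1
      ext g
      simp

theorem isCMinimal (p : ℕ) [Fact p.Prime] (H : Type u) [AddCommGroup H] [Module (ZMod p) H] :
    IsCMinimal (Grp H (ZMod p)) :=
  ⟨inferInstance, inferInstance, isMinimalGroup_of_isClosed⟩

/-- The injection of `H` into a product of copies of `ZMod p`. -/
def toPi (p : ℕ) (H : Type u) [AddCommGroup H] :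
    Multiplicative H →* Multiplicative ((H →+ ZMod p) → ZMod p) :=
  AddMonoidHom.toMultiplicative (AddMonoidHom.mk' (fun x φ => φ x) (by
    intro x y
    funext φ
    exact map_add φ x y))

theorem toPi_injective (p : ℕ) [Fact p.Prime] (H : Type u) [AddCommGroup H]
    [Module (ZMod p) H] : Function.Injective (toPi p H) := by
  rw [injective_iff_map_eq_one]
  intro x hx
  have h1 : ∀ φ : H →+ ZMod p, φ (Multiplicative.toAdd x) = 0 := by
    intro φ
    exact congrFun (congrArg Multiplicative.toAdd hx) φ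
  have h3 : Multiplicative.toAdd x = 0 := by
    rw [← Module.forall_dual_apply_eq_zero_iff (ZMod p)]
    intro φ
    exact h1 φ.toAddMonoidHom
  exact h3

theorem not_isMinimalGroup (p : ℕ) [Fact p.Prime] (H : Type u) [AddCommGroup H]
    [Module (ZMod p) H] (K : Subgroup (Grp H (ZMod p) ⧸ ker H (ZMod p))) (hK : Infinite K) :
    ¬ IsMinimalGroup K := by
  have h1 : DiscreteTopology (Grp H (ZMod p) ⧸ ker H (ZMod p)) := discreteTopology_quotient
  refine not_isMinimalGroup_of_compact
    (((toPi p H).comp (quotEquiv H (ZMod p)).toMonoidHom).comp K.subtype) ?_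
  exact ((toPi_injective p H).comp (quotEquiv H (ZMod p)).injective).comp K.subtype_injective

end Grp

/-- The main statement. -/
theorem main (p : ℕ) [Fact p.Prime] (H : Type u) [AddCommGroup H] [Module (ZMod p) H]
    [Infinite H] :
    ∃ (G : Type u) (_ : Group G) (_ : TopologicalSpace G) (N : Subgroup G) (_ : N.Normal),
      IsCMinimal G ∧ IsCompact (N : Set G) ∧ IsOpen (N : Set G) ∧
        Nonempty (G ⧸ N ≃* Multiplicative H) ∧
        (∀ K : Subgroup (G ⧸ N), Infinite K → ¬ IsMinimalGroup K) ∧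
        ¬ IsHereditarilyMinimal (G ⧸ N) := by
  refine ⟨Grp H (ZMod p), inferInstance, inferInstance, Grp.ker H (ZMod p), inferInstance,
    Grp.isCMinimal p H, Grp.isCompact_ker, Grp.isOpen_ker,
    ⟨Grp.quotEquiv H (ZMod p)⟩,
    Grp.not_isMinimalGroup p H, ?_⟩
  intro h
  have h1 : Infinite (Multiplicative H) := inferInstance
  have h2 : Infinite (Grp H (ZMod p) ⧸ Grp.ker H (ZMod p)) := Infinite.of_injective _
    (Grp.quotEquiv H (ZMod p)).symm.injective
  have h3 : Infinite (⊤ : Subgroup (Grp H (ZMod p) ⧸ Grp.ker H (ZMod p))) :=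
    Infinite.of_injective _ Subgroup.topEquiv.symm.injective
  exact Grp.not_isMinimalGroup p H ⊤ h3 (h.2.2 ⊤)

end Pool.Agent.Lib.MP_e69082_gt
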