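import Pool.Agent.Lib.MP_e69082_gt.Grp

/-!
# The topology of the group

`H` is discrete, `Hom(H, F)` has the topology of pointwise convergence, and `F` is a topological
ring.
-/

set_option autoImplicit false

namespace Pool.Agent.Lib.MP_e69082_gt

open Set Topology Filter

universe u v

variable {H : Type u} {F : Type v} [AddCommGroup H] [CommRing F]

/-- `H` with the discrete topology. -/
def Disc (H : Type u) : Type u := H

instance (H : Type u) : TopologicalSpace (Disc H) := ⊥

instance (H : Type u) : DiscreteTopology (Disc H) := ⟨rfl⟩

namespace Grp

/-- The component in `H`, as an element of the discrete space. -/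
def hd (g : Grp H F) : Disc H := g.h

/-- The embedding defining the topology. -/
def emb (g : Grp H F) : Disc H × (Idx H F → H → F) × (Idx H F → F) :=
  (g.hd, fun i x => g.a i x, g.z)

theorem emb_injective : Function.Injective (emb : Grp H F → _) := by
  intro g g' h
  have h1 : g.h = g'.h := congrArg Prod.fst h
  have h2 : (fun i x => g.a i x) = fun i x => g'.a i x := congrArg (fun t => t.2.1) h
  have h3 : g.z = g'.z := congrArg (fun t => t.2.2) h
  refine ext' h1 (fun i x => congrFun (congrFun h2 i) x) (fun i => congrFun h3 i)

variable [TopologicalSpace F]

instance : TopologicalSpace (Grp H F) :=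
  TopologicalSpace.induced emb inferInstance

theorem isInducing_emb : IsInducing (emb : Grp H F → _) := ⟨rfl⟩

theorem isEmbedding_emb : IsEmbedding (emb : Grp H F → _) := ⟨isInducing_emb, emb_injective⟩

instance [T2Space F] : T2Space (Grp H F) :=
  isEmbedding_emb.t2Space

theorem continuous_h : Continuous (hd : Grp H F → Disc H) :=
  continuous_fst.comp isInducing_emb.continuous

theorem continuous_a (i : Idx H F) (x : H) : Continuous (fun g : Grp H F => g.a i x) := by
  have h1 : Continuous (fun g : Grp H F => (emb g).2.1 i x) :=
    (continuous_apply_apply i x).comp
      (continuous_fst.comp (continuous_snd.comp isInducing_emb.continuous))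
  exact h1

theorem continuous_z (i : Idx H F) : Continuous (fun g : Grp H F => g.z i) := by
  have h1 : Continuous (fun g : Grp H F => (emb g).2.2 i) :=
    (continuous_apply i).comp
      (continuous_snd.comp (continuous_snd.comp isInducing_emb.continuous))
  exact h1

theorem continuous_iff {X : Type*} [TopologicalSpace X] {f : X → Grp H F}
    (h1 : Continuous (fun x => (f x).hd)) (h2 : ∀ i t, Continuous (fun x => (f x).a i t))
    (h3 : ∀ i, Continuous (fun x => (f x).z i)) : Continuous f := by
  rw [isInducing_emb.continuous_iff]
  refine h1.prodMk (Continuous.prodMk ?_ ?_)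
  · exact continuous_pi fun i => continuous_pi fun t => h2 i t
  · exact continuous_pi fun i => h3 i

/-- Evaluation at a locally constant argument. -/
theorem continuous_eval {X : Type*} [TopologicalSpace X] {f : X → Grp H F} (hf : Continuous f)
    {k : X → Disc H} (hk : Continuous k) (i : Idx H F) : Continuous (fun x => (f x).a i (k x)) := by
  have h1 : Continuous (fun y : Grp H F × Disc H => y.1.a i y.2) := by
    rw [continuous_prod_of_discrete_right]
    intro b
    exact continuous_a i b
  exact h1.comp (hf.prodMk hk)

variable [IsTopologicalRing F]

instance : IsTopologicalGroup (Grp H F) where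
  continuous_mul := by
    have c1 : Continuous (fun x : Grp H F × Grp H F => x.1.hd) :=
      continuous_h.comp continuous_fst
    have c2 : Continuous (fun x : Grp H F × Grp H F => x.2.hd) :=
      continuous_h.comp continuous_snd
    have c3 : ∀ {Y : Type v} [TopologicalSpace Y] (w : H → H → Y),
        Continuous (fun x : Grp H F × Grp H F => w x.1.h x.2.h) := by
      intro Y _ w
      have : Continuous (fun y : Disc H × Disc H => w y.1 y.2) := continuous_of_discreteTopology
      exact this.comp (c1.prodMk c2)
    refine continuous_iff ?_ ?_ ?_
    · have : Continuous (fun y : Disc H × Disc H => (show Disc H from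
        (show H from y.1) + (show H from y.2))) := continuous_of_discreteTopology
      exact this.comp (c1.prodMk c2)
    · intro i t
      simp only [mul_a_apply]
      refine Continuous.add (Continuous.add ?_ ?_) ?_
      · exact (continuous_a i t).comp continuous_fst
      · exact (continuous_a i t).comp continuous_snd
      · exact c3 (fun x y => i.φ x * i.B y t)
    · intro i
      simp only [mul_z]
      refine Continuous.add (Continuous.add (Continuous.add ?_ ?_) ?_) ?_
      · exact (continuous_z i).comp continuous_fst
      · exact (continuous_z i).comp continuous_snd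
      · exact continuous_eval continuous_fst c2 i
      · exact c3 (fun x y => i.φ x * i.q y)
  continuous_inv := by
    have c3 : ∀ {Y : Type v} [TopologicalSpace Y] (w : H → Y),
        Continuous (fun x : Grp H F => w x.h) := by
      intro Y _ w
      have : Continuous (fun y : Disc H => w y) := continuous_of_discreteTopology
      exact this.comp continuous_h
    refine continuous_iff ?_ ?_ ?_
    · have : Continuous (fun y : Disc H => (show Disc H from
        - (show H from y))) := continuous_of_discreteTopology
      exact this.comp continuous_h
    · intro i t
      simp only [inv_a_apply]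
      refine Continuous.add (continuous_a i t).neg ?_
      exact c3 (fun x => i.φ x * i.B x t)
    · intro i
      simp only [inv_z]
      refine Continuous.sub (Continuous.add (Continuous.add (continuous_z i).neg ?_) ?_) ?_
      · exact continuous_eval continuous_id continuous_h i
      · exact c3 (fun x => i.φ x * i.q x)
      · exact c3 (fun x => i.φ x * i.B x x)

/-- The preimage of a finite subset of `H` is compact. -/
theorem isCompact_preimage [CompactSpace F] [T2Space F] {T : Set H} (hT : T.Finite) :
    IsCompact {g : Grp H F | g.h ∈ T} := by
  rw [isInducing_emb.isCompact_iff]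
  have h1 : (emb '' {g : Grp H F | g.h ∈ T}) =
      (show Set (Disc H) from T) ×ˢ
        ({a : Idx H F → H → F | ∀ i x y, a i (x + y) = a i x + a i y} ×ˢ
          (Set.univ : Set (Idx H F → F))) := by
    ext ⟨h, a, z⟩
    constructor
    · rintro ⟨g, hg, he⟩
      have e1 : g.h = h := congrArg Prod.fst he
      have e2 : (fun i x => g.a i x) = a := congrArg (fun t => t.2.1) he
      refine ⟨by rw [← e1]; exact hg, ?_, Set.mem_univ _⟩
      intro i x y
      show a i (x + y) = a i x + a i y
      rw [← e2]
      exact map_add _ _ _
    · rintro ⟨hT, ha, -⟩
      exact ⟨⟨h, fun i => AddMonoidHom.mk' (a i) (ha i), z⟩, hT, rfl⟩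
  rw [h1]
  refine IsCompact.prod ?_ (IsCompact.prod ?_ isCompact_univ)
  · exact Set.Finite.isCompact hT
  · apply IsClosed.isCompact
    have : {a : Idx H F → H → F | ∀ i x y, a i (x + y) = a i x + a i y} =
        ⋂ i, ⋂ x, ⋂ y, {a : Idx H F → H → F | a i (x + y) = a i x + a i y} := by
      ext a
      simp
    rw [this]
    refine isClosed_iInter fun i => isClosed_iInter fun x => isClosed_iInter fun y => ?_
    exact isClosed_eq (continuous_apply_apply i (x + y))
      ((continuous_apply_apply i x).add (continuous_apply_apply i y))

omit [IsTopologicalRing F] in
/-- The kernel is open. -/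
theorem isOpen_ker : IsOpen (ker H F : Set (Grp H F)) := by
  have h1 : (ker H F : Set (Grp H F)) =
      (hd : Grp H F → Disc H) ⁻¹' {show Disc H from (0 : H)} := by
    ext g
    exact mem_ker
  rw [h1]
  exact (isOpen_discrete _).preimage continuous_h

theorem discreteTopology_quotient : DiscreteTopology (Grp H F ⧸ ker H F) :=
  QuotientGroup.discreteTopology isOpen_ker

/-- The kernel is compact. -/
theorem isCompact_ker [CompactSpace F] [T2Space F] : IsCompact (ker H F : Set (Grp H F)) := by
  have h1 : (ker H F : Set (Grp H F)) = {g : Grp H F | g.h ∈ ({0} : Set H)} := by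
    ext g
    exact mem_ker
  rw [h1]
  exact isCompact_preimage (Set.finite_singleton 0)

end Grp

end Pool.Agent.Lib.MP_e69082_gt
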