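import Pool.Agent.Lib.MP_e69082_gt.Defs

/-!
# A criterion for minimality
-/

set_option autoImplicit false

namespace Pool.Agent.Lib.MP_e69082_gt

open Set Topology Filter

/-- In a Hausdorff topological group, the set of elements conjugating some point of a compact set
`K` into a compact set `K'` is closed. -/
theorem isClosed_conj {E : Type*} [Group E] [TopologicalSpace E] [IsTopologicalGroup E] [T2Space E]
    {K K' : Set E} (hK : IsCompact K) (hK' : IsCompact K') :
    IsClosed {g : E | ∃ n ∈ K, g⁻¹ * n * g ∈ K'} := by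
  have : CompactSpace K := isCompact_iff_compactSpace.1 hK
  have h1 : IsClosed {x : E × K | x.1⁻¹ * (x.2 : E) * x.1 ∈ K'} := by
    refine hK'.isClosed.preimage ?_
    fun_prop
  have h2 := isClosedMap_fst_of_compactSpace (X := E) (Y := K) _ h1
  have h3 : Prod.fst '' {x : E × K | x.1⁻¹ * (x.2 : E) * x.1 ∈ K'} =
      {g : E | ∃ n ∈ K, g⁻¹ * n * g ∈ K'} := by
    ext g
    simp only [Set.mem_image, Set.mem_ofPred_eq, Prod.exists, exists_and_right, exists_eq_right,
      Subtype.exists]
    constructor
    · rintro ⟨n, hn, h⟩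
      exact ⟨n, hn, h⟩
    · rintro ⟨n, hn, h⟩
      exact ⟨n, hn, h⟩
  rwa [h3] at h2

/-- The tube argument: let `N₀` be a compact normal subset of a Hausdorff topological group
and `m` a function with finitely many values on `N₀` whose fibres in `N₀` are compact; if the
elements under whose conjugation `m` is invariant form a compact set, then the group is minimal. -/
theorem isMinimalGroup_of_stabilizer {E : Type*} [Group E] [τ : TopologicalSpace E]
    (hτ : IsTopologicalGroup E) (hT : T2Space E) {V : Type*} [Finite V] (N₀ : Set E) (m : E → V)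
    (hnorm : ∀ g : E, ∀ n ∈ N₀, g⁻¹ * n * g ∈ N₀)
    (hfib : ∀ c : V, IsCompact {n | n ∈ N₀ ∧ m n = c})
    (S : Set E) (hS : S = {g : E | ∀ n ∈ N₀, m (g⁻¹ * n * g) = m n}) (hSc : IsCompact S) :
    IsMinimalGroup E := by
  refine ⟨hτ, hT, ?_⟩
  have hdiff : ∀ W : Set E, IsOpen W → IsCompact (S \ W) := fun W hW => hSc.diff hW
  have hmem : ∀ U ∈ 𝓝 (1 : E), ∃ W ⊆ U, IsOpen W ∧ (1 : E) ∈ W := fun U hU => mem_nhds_iff.1 hU
  rintro ⟨σ, hσg, hσT, hlt⟩
  have hle : τ ≤ σ := hlt.le
  have hcont : @Continuous E E τ σ id := continuous_id_iff_le.2 hle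
  have hcomp : ∀ K : Set E, @IsCompact E τ K → @IsCompact E σ K := by
    intro K hK
    have := @IsCompact.image E E τ σ K id hK hcont
    simpa using this
  have hclosed : ∀ K : Set E, @IsCompact E τ K → @IsClosed E σ K := by
    intro K hK
    exact @IsCompact.isClosed E σ hσT K (hcomp K hK)
  -- the complement of `S` is closed for `σ`
  have hSo : @IsOpen E σ S := by
    have h1 : Sᶜ = ⋃ c : V × V, ⋃ _ : c.1 ≠ c.2,
        {g : E | ∃ n ∈ {n | n ∈ N₀ ∧ m n = c.1}, g⁻¹ * n * g ∈ {n | n ∈ N₀ ∧ m n = c.2}} := by
      ext g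
      rw [hS]
      simp only [Set.mem_compl_iff, Set.mem_ofPred_eq, Set.mem_iUnion, not_forall]
      constructor
      · rintro ⟨n, hn, hne⟩
        exact ⟨(m n, m (g⁻¹ * n * g)), fun h => hne h.symm, n, ⟨hn, rfl⟩, hnorm g n hn, rfl⟩
      · rintro ⟨⟨c, c'⟩, hne, n, ⟨hn, hc⟩, -, hc'⟩
        refine ⟨n, hn, fun h => hne ?_⟩
        simp only at hc hc'
        rw [← hc, ← hc', h]
    have h2 : @IsClosed E σ Sᶜ := by
      rw [h1]
      refine @isClosed_iUnion_of_finite E (V × V) σ _ _ fun c => ?_
      refine @isClosed_iUnion_of_finite E _ σ _ _ fun _ => ?_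
      exact @isClosed_conj E _ σ hσg hσT _ _ (hcomp _ (hfib c.1)) (hcomp _ (hfib c.2))
    have h3 := @IsClosed.isOpen_compl E σ _ h2
    rwa [compl_compl] at h3
  have h1S : (1 : E) ∈ S := by
    rw [hS]
    intro n _
    simp
  -- neighbourhoods of `1`
  have hnhds : @nhds E σ 1 = @nhds E τ 1 := by
    apply le_antisymm
    · intro U hU
      obtain ⟨W, hWU, hWo, h1W⟩ := hmem U hU
      have h2 : @IsClosed E σ (S \ W) := hclosed _ (hdiff W hWo)
      have h3 : @IsOpen E σ (S ∩ (S \ W)ᶜ) :=
        @IsOpen.inter E σ _ _ hSo (@IsClosed.isOpen_compl E σ _ h2)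
      refine Filter.mem_of_superset (@IsOpen.mem_nhds E σ 1 _ h3 ?_) ?_
      rotate_left
      · rintro x ⟨hxS, hx⟩
        apply hWU
        by_contra hxW
        exact hx ⟨hxS, hxW⟩
      · exact ⟨h1S, fun h => h.2 h1W⟩
    · exact nhds_mono hle
  have : τ = σ := @IsTopologicalGroup.ext E _ τ σ hτ hσg hnhds.symm
  exact hlt.ne this

/-- A minimal group embeds topologically by every continuous injective homomorphism to a Hausdorff
group. -/
theorem IsMinimalGroup.induced_eq {E : Type*} [Group E] [τ : TopologicalSpace E]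
    (hE : IsMinimalGroup E) {Y : Type*} [Group Y] [TopologicalSpace Y] [IsTopologicalGroup Y]
    [T2Space Y] (f : E →* Y) (hf : Continuous f) (hinj : Function.Injective f) :
    IsInducing f := by
  refine ⟨?_⟩
  by_contra hne
  refine hE.2.2 ⟨TopologicalSpace.induced f inferInstance, topologicalGroup_induced f, ?_, ?_⟩
  · exact @T2Space.of_injective_continuous E Y (TopologicalSpace.induced f inferInstance) _ _ f
      hinj continuous_induced_dom
  · exact lt_of_le_of_ne hf.le_induced hne

/-- An infinite discrete group with an injective homomorphism to a compact Hausdorff group is not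
minimal. -/
theorem not_isMinimalGroup_of_compact {E : Type*} [Group E] [TopologicalSpace E]
    [DiscreteTopology E] [Infinite E] {Y : Type*} [Group Y] [TopologicalSpace Y]
    [IsTopologicalGroup Y] [T2Space Y] [CompactSpace Y] (f : E →* Y)
    (hinj : Function.Injective f) : ¬ IsMinimalGroup E := by
  intro hE
  have hind : IsInducing f := hE.induced_eq f continuous_of_discreteTopology hinj
  have hemb : IsEmbedding f := ⟨hind, hinj⟩
  have h1 : DiscreteTopology (f.range : Set Y) := by
    have h2 : (f.range : Set Y) = Set.range f := MonoidHom.coe_range f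
    rw [h2]
    have h8 := hemb.toHomeomorph
    exact h8.symm.isEmbedding.discreteTopology
  have h3 : DiscreteTopology f.range := h1
  have h4 : IsClosed (f.range : Set Y) := Subgroup.isClosed_of_discrete
  have h5 : IsCompact (f.range : Set Y) := h4.isCompact
  have h6 : Finite (f.range : Set Y) := by
    have : CompactSpace (f.range : Set Y) := isCompact_iff_compactSpace.1 h5
    exact finite_of_compact_of_discrete
  have h7 : Finite E := by
    have : Function.Injective (fun x : E => (⟨f x, ⟨x, rfl⟩⟩ : (f.range : Set Y))) := by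
      intro x y hxy
      exact hinj (congrArg Subtype.val hxy)
    exact Finite.of_injective _ this
  exact not_finite E

end Pool.Agent.Lib.MP_e69082_gt
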